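import Mathlib

open Set Metric Topology

namespace Pool.Agent.Results.MP_722163_an.FixedPoint

/-- the generators -/
inductive Gen : Type
  | a | b | c

/-- the relations `ab = e` and `ac = e` -/
def rels (u v : FreeMonoid Gen) : Prop :=
  (u = .of .a * .of .b ∨ u = .of .a * .of .c) ∧ v = 1

/-- the partially bicyclic monoid -/
abbrev S2 : Type := PresentedMonoid rels

lemma minimal {X : Type*} [TopologicalSpace X] [CompactSpace X] (P : Set X → Prop)
    (hP : ∀ c : Set (Set X), c.Nonempty → (∀ s ∈ c, P s) → P (⋂₀ c)) {S : Set X}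
    (h : IsClosed S ∧ S.Nonempty ∧ P S) :
    ∃ M ⊆ S, (IsClosed M ∧ M.Nonempty ∧ P M) ∧
      ∀ N ⊆ M, IsClosed N → N.Nonempty → P N → M ⊆ N := by
  obtain ⟨M, h1, h2⟩ := zorn_superset_nonempty {s | IsClosed s ∧ s.Nonempty ∧ P s}
    (fun c hc hch hne => by
      have := hne.to_subtype
      exact ⟨⋂₀ c, ⟨isClosed_sInter fun s hs => (hc hs).1,
        IsCompact.nonempty_sInter_of_directed_nonempty_isCompact_isClosed
          (IsChain.directedOn hch.symm) (fun s hs => (hc hs).2.1)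
          (fun s hs => (hc hs).1.isCompact) (fun s hs => (hc hs).1),
        hP c hne fun s hs => (hc hs).2.2⟩, fun s hs => sInter_subset_of_mem hs⟩) S h
  exact ⟨M, h1, h2.prop, fun N hN a b c => h2.le_of_le ⟨a, b, c⟩ hN⟩

section
variable {X V : Type*} [TopologicalSpace X] [CompactSpace X] [T2Space X]
  [NormedAddCommGroup V] [NormedSpace ℝ V] (ι : X → V)
  (hb : ∀ v r, IsClosed (ι ⁻¹' closedBall v r))

def act (g : Bool → X → X) : List Bool → X → X
  | [], x => x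
  | i :: w, x => act g w (g i x)

include hb in
omit [NormedSpace ℝ V] in
lemma tb (hs : TopologicalSpace.IsSeparable (range ι)) (g : Bool → X → X)
    (gc : ∀ i, Continuous (g i)) {M : Set X} (m1 : IsClosed M) (m2 : M.Nonempty)
    (m3 : ∀ i, MapsTo (g i) M M)
    (m4 : ∀ N ⊆ M, IsClosed N → N.Nonempty → (∀ i, MapsTo (g i) N N) → M ⊆ N)
    (iso : ∀ i, ∀ x ∈ M, ∀ y ∈ M, dist (ι x) (ι y) ≤ dist (ι (g i x)) (ι (g i y))) :
    TotallyBounded (ι '' M) := by
  have ac : ∀ w, Continuous (act g w) := by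
    intro w
    induction w with
    | nil => exact continuous_id
    | cons i w ih => exact ih.comp (gc i)
  have am : ∀ w, ∀ x ∈ M, act g w x ∈ M := by
    intro w
    induction w with
    | nil => exact fun _ h => h
    | cons i w ih => exact fun x h => ih _ (m3 i h)
  have ai : ∀ w, ∀ x ∈ M, ∀ y ∈ M, dist (ι x) (ι y) ≤ dist (ι (act g w x)) (ι (act g w y)) := by
    intro w
    induction w with
    | nil => exact fun _ _ _ _ => le_rfl
    | cons i w ih => exact fun x h y k => (iso i x h y k).trans (ih _ (m3 i h) _ (m3 i k))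
  refine Metric.totallyBounded_iff.2 fun ε hε => ?_
  obtain ⟨D, d1, d2⟩ := hs
  have := d1.to_subtype
  have := m2.to_subtype
  have : CompactSpace M := isCompact_iff_compactSpace.1 m1.isCompact
  obtain ⟨d, z, hz⟩ := nonempty_interior_of_iUnion_of_closed
    (f := fun d : D => (Subtype.val : M → X) ⁻¹' (ι ⁻¹' closedBall d.1 (ε / 3)))
    (fun d => (hb _ _).preimage continuous_subtype_val) (eq_univ_of_forall fun x => by
      obtain ⟨v, hv, h⟩ := Metric.mem_closure_iff.1 (d2 ⟨x.1, rfl⟩) (ε / 3) (by positivity)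
      exact mem_iUnion.2 ⟨⟨v, hv⟩, h.le⟩)
  obtain ⟨_, u1, ⟨U, u2, rfl⟩, u3⟩ := mem_interior.1 hz
  have cov : M ⊆ ⋃ w, act g w ⁻¹' U := by
    by_contra hn
    obtain ⟨x, x1, x2⟩ := not_subset.1 hn
    have := m4 (M ∩ (⋃ w, act g w ⁻¹' U)ᶜ) inter_subset_left
      (m1.inter (isOpen_iUnion fun w => u2.preimage (ac w)).isClosed_compl) ⟨x, x1, x2⟩
      fun i y hy => ⟨m3 i hy.1, fun h => by
        obtain ⟨w, hw⟩ := mem_iUnion.1 h
        exact hy.2 (mem_iUnion.2 ⟨i :: w, hw⟩)⟩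
    exact (this z.2).2 (mem_iUnion.2 ⟨[], u3⟩)
  obtain ⟨t, ht⟩ := m1.isCompact.elim_finite_subcover _ (fun w => u2.preimage (ac w)) cov
  have hp : ∀ w, ∃ p : V, ∀ x ∈ M, act g w x ∈ U → ι x ∈ ball p ε := by
    intro w
    by_cases h : ∃ y ∈ M, act g w y ∈ U
    · obtain ⟨y, y1, y2⟩ := h
      refine ⟨ι y, fun x x1 x2 => ?_⟩
      have a1 : dist (ι (act g w x)) d.1 ≤ ε / 3 := u1 (a := ⟨_, am w x x1⟩) x2
      have a2 : dist (ι (act g w y)) d.1 ≤ ε / 3 := u1 (a := ⟨_, am w y y1⟩) y2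
      have a3 := dist_triangle_right (ι (act g w x)) (ι (act g w y)) d.1
      have a4 := ai w x x1 y y1
      rw [mem_ball]; linarith
    · exact ⟨0, fun x x1 x2 => absurd ⟨x, x1, x2⟩ h⟩
  choose p hp using hp
  refine ⟨p '' t, t.finite_toSet.image _, ?_⟩
  rintro _ ⟨x, hx, rfl⟩
  obtain ⟨w, hw, h⟩ := mem_iUnion₂.1 (ht hx)
  exact mem_iUnion₂.2 ⟨p w, ⟨w, hw, rfl⟩, hp w x hx h⟩

include hb in
omit [NormedSpace ℝ V] in
lemma onto (hi : Function.Injective ι) {g : X → X} (gc : Continuous g) {M : Set X}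
    (m1 : IsClosed M) (m3 : MapsTo g M M) (ht : TotallyBounded (ι '' M))
    (iso : ∀ x ∈ M, ∀ y ∈ M, dist (ι x) (ι y) ≤ dist (ι (g x)) (ι (g y))) : g '' M = M := by
  refine m3.image_subset.antisymm fun x hx => ?_
  have ii : ∀ n, ∀ x ∈ M, ∀ y ∈ M, dist (ι x) (ι y) ≤ dist (ι (g^[n] x)) (ι (g^[n] y)) := by
    intro n
    induction n with
    | zero => exact fun _ _ _ _ => le_rfl
    | succ n ih => exact fun x h y k => (iso x h y k).trans (ih _ (m3 h) _ (m3 k))
  have near : ∀ ε > 0, (g '' M ∩ ι ⁻¹' closedBall (ι x) ε).Nonempty := by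
    intro ε hε
    obtain ⟨t, t1, t2⟩ := Metric.totallyBounded_iff.1 ht (ε / 2) (by positivity)
    have : ∀ n : ℕ, ∃ y : t, dist (ι (g^[n] x)) y.1 < ε / 2 := fun n => by
      obtain ⟨y, y1, y2⟩ := mem_iUnion₂.1 (t2 ⟨_, m3.iterate n hx, rfl⟩)
      exact ⟨⟨y, y1⟩, y2⟩
    choose f hf using this
    have := t1.to_subtype
    obtain ⟨n, m, hnm, e⟩ := Finite.exists_ne_map_eq_of_infinite f
    wlog h : n < m generalizing n m
    · exact this m n hnm.symm e.symm (by omega)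
    obtain ⟨k, rfl⟩ : ∃ k, m = n + (k + 1) := ⟨m - n - 1, by omega⟩
    refine ⟨g^[k + 1] x, ⟨g^[k] x, m3.iterate k hx, (Function.iterate_succ_apply' _ _ _).symm⟩, ?_⟩
    have a1 := ii n _ (m3.iterate (k + 1) hx) x hx
    rw [← Function.iterate_add_apply] at a1
    have a2 := hf n
    have a3 := hf (n + (k + 1))
    rw [← e] at a3
    have a4 := dist_triangle_right (ι (g^[n + (k + 1)] x)) (ι (g^[n] x)) (f n).1
    show dist _ _ ≤ _
    linarith
  have cl : IsClosed (g '' M) := (m1.isCompact.image gc).isClosed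
  obtain ⟨y, hy⟩ := IsCompact.nonempty_iInter_of_sequence_nonempty_isCompact_isClosed
    (fun n : ℕ => g '' M ∩ ι ⁻¹' closedBall (ι x) (1 / ((n : ℝ) + 1)))
    (fun n => inter_subset_inter_right _ (preimage_mono (closedBall_subset_closedBall
      (Nat.one_div_le_one_div (Nat.le_succ n)))))
    (fun n => near _ Nat.one_div_pos_of_nat) (cl.inter (hb _ _)).isCompact
    fun n => cl.inter (hb _ _)
  have : ι y = ι x := by
    by_contra k
    obtain ⟨n, hn⟩ := exists_nat_one_div_lt (dist_pos.2 k)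
    exact absurd (mem_iInter.1 hy n).2 (not_le.2 hn)
  exact hi this ▸ (mem_iInter.1 hy 0).1

lemma demarr {A K : Set V} (hA : TotallyBounded A) (hK : Convex ℝ K) (hAK : A ⊆ K)
    (hr : 0 < diam A) : ∃ u ∈ K, ∃ r < diam A, ∀ x ∈ A, dist x u ≤ r := by
  obtain ⟨t, t1, t2, t3⟩ := Metric.finite_approx_of_totallyBounded hA (diam A / 2) (by positivity)
  have bd : ∀ x ∈ A, ∀ y ∈ A, dist x y ≤ diam A := fun x h y k =>
    dist_le_diam_of_mem hA.isBounded h k
  have key : ∃ u ∈ K, ∃ δ > 0, (∀ x ∈ A, dist x u ≤ diam A) ∧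
      ∀ x ∈ A, (∃ y ∈ t, dist x y < diam A / 2) → dist x u ≤ diam A - δ := by
    clear t3
    induction t, t2 using Set.Finite.induction_on with
    | empty =>
      obtain ⟨u, hu⟩ : A.Nonempty := by
        rw [nonempty_iff_ne_empty]; rintro rfl; simp at hr
      exact ⟨u, hAK hu, 1, one_pos, fun x hx => bd x hx u hu, fun x _ ⟨_, h, _⟩ => h.elim⟩
    | @insert y t _ _ ih =>
      obtain ⟨u, u1, δ, d1, u2, u3⟩ := ih ((subset_insert _ _).trans t1)
      have hy := t1 (mem_insert _ _)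
      have e : ∀ x : V, dist x ((1 / 2 : ℝ) • u + (1 / 2 : ℝ) • y) ≤ (dist x u + dist x y) / 2 := by
        intro x
        have : x - ((1 / 2 : ℝ) • u + (1 / 2 : ℝ) • y) =
            (1 / 2 : ℝ) • (x - u) + (1 / 2 : ℝ) • (x - y) := by module
        rw [dist_eq_norm, dist_eq_norm, dist_eq_norm, this]
        refine (norm_add_le _ _).trans ?_
        rw [norm_smul, norm_smul, Real.norm_of_nonneg (by norm_num : (0 : ℝ) ≤ 1 / 2)]
        linarith
      refine ⟨_, hK u1 (hAK hy) (by norm_num : (0 : ℝ) ≤ 1 / 2) (by norm_num : (0 : ℝ) ≤ 1 / 2)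
        (by norm_num), min (δ / 2) (diam A / 4), by positivity, fun x hx => ?_, ?_⟩
      · linarith [e x, u2 x hx, bd x hx y hy]
      · rintro x hx ⟨z, rfl | z1, z2⟩
        · linarith [e x, u2 x hx, min_le_right (δ / 2) (diam A / 4)]
        · linarith [e x, u3 x hx ⟨z, z1, z2⟩, bd x hx y hy, min_le_left (δ / 2) (diam A / 4)]
  obtain ⟨u, u1, δ, d1, -, u3⟩ := key
  refine ⟨u, u1, diam A - δ, by linarith, fun x hx => u3 x hx ?_⟩
  obtain ⟨y, y1, y2⟩ := mem_iUnion₂.1 (t3 hx)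
  exact ⟨y, y1, y2⟩

include hb in
lemma main [Nonempty X] (hi : Function.Injective ι)
    (hs : TopologicalSpace.IsSeparable (range ι)) (hc : Convex ℝ (range ι)) (T : S2 → X → X)
    (tc : ∀ s, Continuous (T s)) (tm : ∀ s t x, T (s * t) x = T s (T t x))
    (tn : ∀ s x y, dist (ι (T s x)) (ι (T s y)) ≤ dist (ι x) (ι y)) : ∃ x, ∀ s, T s x = x := by
  obtain ⟨K, -, ⟨k1, ⟨x0, k2⟩, k3, k4⟩, k5⟩ := minimal
    (fun K : Set X => Convex ℝ (ι '' K) ∧ ∀ s, MapsTo (T s) K K) (fun c _ h =>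
      ⟨by
        rintro _ ⟨x, hx, rfl⟩ _ ⟨y, hy, rfl⟩ p q hp hq hpq
        obtain ⟨z, hz⟩ := hc ⟨x, rfl⟩ ⟨y, rfl⟩ hp hq hpq
        refine ⟨z, fun k hk => ?_, hz⟩
        obtain ⟨w, w1, w2⟩ := (h k hk).1 ⟨x, hx k hk, rfl⟩ ⟨y, hy k hk, rfl⟩ hp hq hpq
        exact hi (w2.trans hz.symm) ▸ w1,
      fun s x hx k hk => (h k hk).2 s (hx k hk)⟩)
    (S := univ) ⟨isClosed_univ, univ_nonempty, by rwa [image_univ], fun _ => mapsTo_univ _ _⟩
  let a : S2 := PresentedMonoid.of rels .a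
  let g : Bool → S2 := fun i => PresentedMonoid.of rels (if i = true then .b else .c)
  have ag : ∀ i, a * g i = 1 := by
    intro i
    have : ∀ u, rels u 1 → PresentedMonoid.mk rels u = 1 := fun u hu =>
      Quotient.sound (ConGen.Rel.of _ _ hu)
    cases i
    · exact this _ ⟨Or.inr rfl, rfl⟩
    · exact this _ ⟨Or.inl rfl, rfl⟩
  obtain ⟨M, mK, ⟨m1, m2, m3⟩, m4⟩ := minimal (fun M : Set X => ∀ i, MapsTo (T (g i)) M M)
    (fun c _ h i x hx k hk => h k hk i (hx k hk)) (S := K ∩ {x | T 1 x = x})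
    ⟨k1.inter (isClosed_eq (tc 1) continuous_id), ⟨T 1 x0, k4 1 k2, by
      show T 1 (T 1 x0) = T 1 x0
      rw [← tm, mul_one]⟩, fun i x hx => ⟨k4 _ hx.1, by
      show T 1 (T (g i) x) = T (g i) x
      rw [← tm, one_mul]⟩⟩
  have inv : ∀ i, ∀ x ∈ M, T a (T (g i) x) = x := fun i x hx => by
    rw [← tm, ag]; exact (mK hx).2
  have iso : ∀ i, ∀ x ∈ M, ∀ y ∈ M, dist (ι x) (ι y) ≤ dist (ι (T (g i) x)) (ι (T (g i) y)) :=
    fun i x h y k => by
      have := tn a (T (g i) x) (T (g i) y)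
      rwa [inv i x h, inv i y k] at this
  have ht := tb ι hb hs (fun i => T (g i)) (fun i => tc _) m1 m2 m3 m4 iso
  have og : ∀ i, T (g i) '' M = M := fun i => onto ι hb hi (tc _) m1 (m3 i) ht (iso i)
  have oa : T a '' M = M := by
    conv_lhs => rw [← og true, image_image]
    rw [image_congr (g := id) (inv true), image_id]
  have os : ∀ s, T s '' M = M := by
    intro s
    obtain ⟨u, rfl⟩ := PresentedMonoid.surjective_mk s
    induction u using FreeMonoid.inductionOn' with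
    | one => rw [map_one, image_congr (g := id) fun x hx => (mK hx).2, image_id]
    | of_mul x u ih =>
      rw [map_mul, image_congr (g := fun y => T _ (T _ y)) fun y _ => tm _ _ y, ← image_image, ih]
      cases x
      · exact oa
      · exact og true
      · exact og false
  obtain ⟨x, hx⟩ := m2
  refine ⟨x, fun s => ?_⟩
  by_contra hne
  have hx' : T s x ∈ M := os s ▸ mem_image_of_mem _ hx
  have hr : 0 < diam (ι '' M) := (dist_pos.2 fun e => hne (hi e)).trans_le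
    (dist_le_diam_of_mem ht.isBounded ⟨_, hx', rfl⟩ ⟨_, hx, rfl⟩)
  obtain ⟨_, ⟨u, u1, rfl⟩, r, r1, r2⟩ := demarr ht k3 (image_mono fun y hy => (mK hy).1) hr
  have hN := k5 (K ∩ ⋂ y ∈ M, ι ⁻¹' closedBall (ι y) r) inter_subset_left
    (k1.inter (isClosed_biInter fun y _ => hb _ _))
    ⟨u, u1, mem_iInter₂.2 fun y hy => mem_closedBall'.2 (r2 _ ⟨y, hy, rfl⟩)⟩
    ⟨by
      have : ι '' (K ∩ ⋂ y ∈ M, ι ⁻¹' closedBall (ι y) r) =
          ι '' K ∩ ⋂ y ∈ M, closedBall (ι y) r := by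
        rw [← image_inter_preimage, preimage_iInter₂]
      rw [this]
      exact k3.inter (convex_iInter₂ fun y _ => convex_closedBall _ _),
    fun s z hz => ⟨k4 s hz.1, mem_iInter₂.2 fun y hy => by
      rw [← os s] at hy
      obtain ⟨w, hw, rfl⟩ := hy
      exact (tn s z w).trans (mem_iInter₂.1 hz.2 w hw)⟩⟩
  have r0 : 0 ≤ r := dist_nonneg.trans (r2 _ ⟨x, hx, rfl⟩)
  refine absurd (diam_le_of_forall_dist_le r0 ?_) (not_le.2 r1)
  rintro _ ⟨y, hy, rfl⟩ _ ⟨z, hz, rfl⟩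
  exact mem_iInter₂.1 (hN (mK hy).1).2 z hz
end

/-- The partially bicyclic semigroup has the fixed point property `(F_{*s})`. -/
theorem result (E : Type) [NormedAddCommGroup E] [NormedSpace ℝ E] [CompleteSpace E]
    (C : Set (StrongDual ℝ E)) (T : S2 → StrongDual ℝ E → StrongDual ℝ E)
    (h1 : C.Nonempty) (h2 : Convex ℝ C) (h3 : TopologicalSpace.IsSeparable C)
    (h4 : IsCompact (StrongDual.toWeakDual '' C)) (h5 : ∀ s, MapsTo (T s) C C)
    (h6 : ∀ s t : S2, ∀ φ ∈ C, T (s * t) φ = T s (T t φ))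
    (h7 : ∀ s : S2, ∀ φ ∈ C, ∀ ψ ∈ C, ‖T s φ - T s ψ‖ ≤ ‖φ - ψ‖)
    (h8 : ∀ s : S2, ContinuousOn
      (fun ω => StrongDual.toWeakDual (T s (StrongDual.toWeakDual.symm ω)))
      (StrongDual.toWeakDual '' C)) :
    ∃ φ ∈ C, ∀ s : S2, T s φ = φ := by
  have := isCompact_iff_compactSpace.1 h4
  have := (h1.image (StrongDual.toWeakDual (𝕜 := ℝ) (E := E))).to_subtype
  let ι : (StrongDual.toWeakDual '' C : Set (WeakDual ℝ E)) → StrongDual ℝ E :=
    fun x => StrongDual.toWeakDual.symm x.1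
  have hm : ∀ x, ι x ∈ C := by
    rintro ⟨_, φ, h, rfl⟩; exact h
  have hr : range ι = C := by
    refine Subset.antisymm (by rintro _ ⟨x, rfl⟩; exact hm x) fun φ h => ⟨⟨_, φ, h, rfl⟩, rfl⟩
  obtain ⟨x, hx⟩ := main ι
    (fun v r => (WeakDual.isClosed_closedBall v r).preimage continuous_subtype_val)
    (fun x y h => Subtype.ext (StrongDual.toWeakDual.symm.injective h)) (by rwa [hr]) (by rwa [hr])
    (fun s x => ⟨StrongDual.toWeakDual (T s (ι x)), _, h5 s (hm x), rfl⟩)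
    (fun s => (h8 s).domRestrict.subtype_mk _)
    (fun s t x => Subtype.ext (congrArg StrongDual.toWeakDual (h6 s t _ (hm x))))
    (fun s x y => by
      rw [dist_eq_norm, dist_eq_norm]; exact h7 s _ (hm x) _ (hm y))
  exact ⟨ι x, hm x, fun s => congrArg ι (hx s)⟩

end Pool.Agent.Results.MP_722163_an.FixedPoint
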